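import Mathlib

set_option autoImplicit false

/-! A graph with an infinite clique subdivision contains a disjoint union of infinitely many
infinitely subdivided stars with infinitely many legs. -/

namespace Pool.Agent.Q216.MC

open SimpleGraph

/-- `G` contains a subdivision of the infinite complete graph `K_ℵ₀`: distinct branch vertices
`v 0, v 1, ...` and for all `i < j` a path `P i j` in `G` from `v i` to `v j` whose only branch
vertices are its ends, such that different paths meet only in branch vertices. -/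
def HasInfiniteCliqueSubdivision (G : SimpleGraph ℕ) : Prop :=
  ∃ v : ℕ → ℕ, Function.Injective v ∧ ∃ P : ∀ i j, G.Walk (v i) (v j),
    (∀ i j, i < j → (P i j).IsPath) ∧
    (∀ i j k, i < j → v k ∈ (P i j).support → k = i ∨ k = j) ∧
    (∀ i j i' j', i < j → i' < j' → (i, j) ≠ (i', j') → ∀ x, x ∈ (P i j).support →
      x ∈ (P i' j').support → ∃ k, x = v k)

/-- Infinitely many disjoint stars with infinitely many legs which are infinite paths: `(s, none)`
is the centre of the star number `s`, and `(s, some (l, d))` is the vertex number `d` of its leg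
number `l`. -/
def spiders : SimpleGraph (ℕ × Option (ℕ × ℕ)) :=
  SimpleGraph.fromRel fun u v => u.1 = v.1 ∧
    ((u.2 = none ∧ ∃ l, v.2 = some (l, 0)) ∨ ∃ l d, u.2 = some (l, d) ∧ v.2 = some (l, d + 1))

theorem path_append {V : Type} {G : SimpleGraph V} {a b c : V} {p : G.Walk a b} {q : G.Walk b c}
    (hp : p.IsPath) (hq : q.IsPath) (h : ∀ x ∈ p.support, x ∈ q.support → x = b) :
    (p.append q).IsPath := by
  rw [Walk.isPath_def] at hp hq ⊢
  rw [Walk.support_append]
  refine List.Nodup.append hp (hq.sublist (List.tail_sublist _)) ?_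
  intro x hx hx'
  have h1 : x ∈ q.support := List.mem_of_mem_tail hx'
  have h2 := h x hx h1
  subst h2
  rw [← Walk.cons_tail_support, List.nodup_cons] at hq
  exact hq.1 hx'

section

variable {G : SimpleGraph ℕ} {v : ℕ → ℕ} (P : ∀ i j, G.Walk (v i) (v j)) (B : ℕ → ℕ)

/-- the concatenation of the first `n` paths -/
def cat : (n : ℕ) → G.Walk (v (B 0)) (v (B n))
  | 0 => Walk.nil
  | n + 1 => (cat n).append (P (B n) (B (n + 1)))

theorem cat_supp (n : ℕ) (x : ℕ) (hx : x ∈ (cat P B n).support) :
    x = v (B 0) ∨ ∃ m, m < n ∧ x ∈ (P (B m) (B (m + 1))).support := by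
  induction n with
  | zero =>
    left
    simpa [cat] using hx
  | succ n ih =>
    rw [cat, Walk.mem_support_append_iff] at hx
    rcases hx with hx | hx
    · rcases ih hx with h | ⟨m, h1, h2⟩
      · exact Or.inl h
      · exact Or.inr ⟨m, by omega, h2⟩
    · exact Or.inr ⟨n, by omega, hx⟩

variable (hv : Function.Injective v) (h1 : ∀ i j, i < j → (P i j).IsPath)
  (h2 : ∀ i j k, i < j → v k ∈ (P i j).support → k = i ∨ k = j)
  (h3 : ∀ i j i' j', i < j → i' < j' → (i, j) ≠ (i', j') → ∀ x, x ∈ (P i j).support →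
      x ∈ (P i' j').support → ∃ k, x = v k)
  (hB : StrictMono B)

include hv h1 h2 h3 hB

omit hv in
theorem cat_path (n : ℕ) : (cat P B n).IsPath := by
  induction n with
  | zero => exact Walk.IsPath.nil
  | succ n ih =>
    refine path_append ih (h1 _ _ (hB (Nat.lt_succ_self n))) ?_
    intro x hx hx'
    rcases cat_supp P B n x hx with h | ⟨m, hm, h⟩
    · subst h
      rcases h2 _ _ _ (hB (Nat.lt_succ_self n)) hx' with h | h
      · rw [h]
      · have := hB (Nat.succ_pos n)
        exact absurd h (by omega)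
    · have hne : (B m, B (m + 1)) ≠ (B n, B (n + 1)) := by
        intro he
        have := hB.injective (Prod.mk.inj he).1
        omega
      obtain ⟨k, hk⟩ := h3 _ _ _ _ (hB (Nat.lt_succ_self m)) (hB (Nat.lt_succ_self n)) hne x h hx'
      subst hk
      rcases h2 _ _ _ (hB (Nat.lt_succ_self n)) hx' with h4 | h4
      · rw [h4]
      · rcases h2 _ _ _ (hB (Nat.lt_succ_self m)) h with h5 | h5
        · have := hB.injective (h5.symm.trans h4)
          omega
        · have := hB.injective (h5.symm.trans h4)
          omega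

omit h1 h2 h3 in
theorem cat_len (n : ℕ) : n ≤ (cat P B n).length := by
  induction n with
  | zero => exact Nat.zero_le _
  | succ n ih =>
    rw [cat, Walk.length_append]
    have : (P (B n) (B (n + 1))).length ≠ 0 := by
      intro h
      have h4 := Walk.eq_of_length_eq_zero h
      have h5 := hB.injective (hv h4)
      omega
    omega

omit h1 h2 h3 in
/-- prefixes -/
theorem cat_pre (n d m : ℕ) (hd : d ≤ n) :
    (cat P B (n + m)).getVert d = (cat P B n).getVert d := by
  induction m with
  | zero => rfl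
  | succ m ih =>
    rw [← ih]
    show (cat P B (n + m + 1)).getVert d = _
    rw [cat, Walk.getVert_append']
    rw [if_pos]
    have := cat_len P B hv hB (n + m)
    omega

/-- the ray -/
def ray (d : ℕ) : ℕ := (cat P B d).getVert d

omit h1 h2 h3 in
theorem ray_eq {n d : ℕ} (h : d ≤ n) : (cat P B n).getVert d = ray P B d := by
  obtain ⟨m, rfl⟩ := Nat.exists_eq_add_of_le h
  exact cat_pre P B hv hB d d m le_rfl

omit hv h1 h2 h3 hB in
theorem ray_zero : ray P B 0 = v (B 0) := rfl

omit h1 h2 h3 in
theorem ray_adj (d : ℕ) : G.Adj (ray P B d) (ray P B (d + 1)) := by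
  rw [← ray_eq P B hv hB (n := d + 1) (by omega)]
  show G.Adj _ ((cat P B (d + 1)).getVert (d + 1))
  refine Walk.adj_getVert_succ _ ?_
  have := cat_len P B hv hB (d + 1)
  omega

theorem ray_inj {d d' : ℕ} (h : ray P B d = ray P B d') : d = d' := by
  wlog hle : d ≤ d' generalizing d d'
  · exact (this h.symm (by omega)).symm
  rw [← ray_eq P B hv hB hle] at h
  have hl := cat_len P B hv hB d'
  exact (cat_path P B h1 h2 h3 hB d').getVert_injOn (by
    rw [Set.mem_ofPred_eq]; omega) (by rw [Set.mem_ofPred_eq]; omega) h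

omit hv h1 h2 h3 hB in
theorem ray_mem (d : ℕ) : ray P B d = v (B 0) ∨
    ∃ m, m < d ∧ ray P B d ∈ (P (B m) (B (m + 1))).support :=
  cat_supp P B d _ (Walk.getVert_mem_support _ _)

end

/-- the branch vertices -/
def br (s l : ℕ) : ℕ → ℕ
  | 0 => 2 * s
  | n + 1 => 2 * Nat.pair (Nat.pair s l) n + 1

theorem br_mono (s l : ℕ) : StrictMono (br s l) := by
  refine strictMono_nat_of_lt_succ fun n => ?_
  cases n with
  | zero =>
    show 2 * s < 2 * Nat.pair (Nat.pair s l) 0 + 1
    have h1 := Nat.left_le_pair s l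
    have h2 := Nat.left_le_pair (Nat.pair s l) 0
    omega
  | succ n =>
    show 2 * Nat.pair (Nat.pair s l) n + 1 < 2 * Nat.pair (Nat.pair s l) (n + 1) + 1
    have := Nat.pair_lt_pair_right (Nat.pair s l) (Nat.lt_add_one n)
    omega

/-- which branch vertices occur on which rays -/
theorem br_eq {s l s' l' m m' : ℕ} (h : br s l m = br s' l' m') :
    s = s' ∧ m = m' ∧ (m ≠ 0 → l = l') := by
  cases m with
  | zero =>
    cases m' with
    | zero =>
      have : 2 * s = 2 * s' := h
      exact ⟨by omega, rfl, fun h => absurd rfl h⟩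
    | succ m' =>
      have : 2 * s = 2 * Nat.pair (Nat.pair s' l') m' + 1 := h
      omega
  | succ m =>
    cases m' with
    | zero =>
      have : 2 * Nat.pair (Nat.pair s l) m + 1 = 2 * s' := h
      omega
    | succ m' =>
      have h1 : 2 * Nat.pair (Nat.pair s l) m + 1 = 2 * Nat.pair (Nat.pair s' l') m' + 1 := h
      have h2 : Nat.pair (Nat.pair s l) m = Nat.pair (Nat.pair s' l') m' := by omega
      rw [Nat.pair_eq_pair, Nat.pair_eq_pair] at h2
      exact ⟨h2.1.1, by omega, fun _ => h2.1.2⟩

/-- A graph with an infinite clique subdivision contains all the spiders. -/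
theorem spiders_of (G : SimpleGraph ℕ) (h : HasInfiniteCliqueSubdivision G) :
    spiders.IsContained G := by
  obtain ⟨v, hv, P, h1, h2, h3⟩ := h
  let f : ℕ × Option (ℕ × ℕ) → ℕ := fun u => match u with
    | (s, none) => v (2 * s)
    | (s, some (l, d)) => ray P (br s l) (d + 1)
  have hinj := fun s l => @ray_inj G v P (br s l) hv h1 h2 h3 (br_mono s l)
  -- rays of different legs meet only in the centre
  have key : ∀ s l d s' l' d', ray P (br s l) (d + 1) = ray P (br s' l') (d' + 1) →
      s = s' ∧ l = l' := by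
    intro s l d s' l' d' he
    have nc : ∀ s l d, ray P (br s l) (d + 1) ≠ v (br s l 0) := by
      intro s l d h
      have := hinj s l (d := d + 1) (d' := 0) h
      omega
    rcases ray_mem P (br s l) (d + 1) with h | ⟨m, -, hm⟩
    · exact absurd h (nc s l d)
    rcases ray_mem P (br s' l') (d' + 1) with h | ⟨m', -, hm'⟩
    · exact absurd h (nc s' l' d')
    have lt := br_mono s l (Nat.lt_succ_self m)
    have lt' := br_mono s' l' (Nat.lt_succ_self m')
    by_cases hp : (br s l m, br s l (m + 1)) = (br s' l' m', br s' l' (m' + 1))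
    · have h4 := br_eq (Prod.mk.inj hp).2
      exact ⟨h4.1, h4.2.2 (Nat.succ_ne_zero m)⟩
    · obtain ⟨k, hk⟩ := h3 _ _ _ _ lt lt' hp _ hm (he ▸ hm')
      rw [hk] at hm
      rw [← he, hk] at hm'
      have hk0 : k ≠ br s l 0 := fun e => nc s l d (by rw [hk, e])
      have hk0' : k ≠ br s' l' 0 := fun e => nc s' l' d' (by rw [← he, hk, e])
      have a1 : ∃ n, n ≠ 0 ∧ k = br s l n := by
        rcases h2 _ _ _ lt hm with h | h
        · exact ⟨m, fun e => hk0 (by rw [h, e]), h⟩
        · exact ⟨m + 1, Nat.succ_ne_zero m, h⟩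
      have a2 : ∃ n, n ≠ 0 ∧ k = br s' l' n := by
        rcases h2 _ _ _ lt' hm' with h | h
        · exact ⟨m', fun e => hk0' (by rw [h, e]), h⟩
        · exact ⟨m' + 1, Nat.succ_ne_zero m', h⟩
      obtain ⟨n, hn, e1⟩ := a1
      obtain ⟨n', hn', e2⟩ := a2
      have h4 := br_eq (e1.symm.trans e2)
      exact ⟨h4.1, h4.2.2 hn⟩
  -- centres are not on the legs
  have key2 : ∀ s s' l d, v (2 * s) ≠ ray P (br s' l) (d + 1) := by
    intro s s' l d he
    rcases ray_mem P (br s' l) (d + 1) with h | ⟨m, -, hm⟩
    · have := hinj s' l (d := d + 1) (d' := 0) h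
      omega
    · rw [← he] at hm
      have h5 : ∃ n, 2 * s = br s' l n := by
        rcases h2 _ _ _ (br_mono s' l (Nat.lt_succ_self m)) hm with h | h
        · exact ⟨_, h⟩
        · exact ⟨_, h⟩
      obtain ⟨n, hn⟩ := h5
      have h6 : br s 0 0 = br s' l n := hn
      have h7 := br_eq h6
      have h8 := h7.1
      have h9 := h7.2.1
      subst h8
      subst h9
      have := hinj s l (d := 0) (d' := d + 1) he
      omega
  have finj : Function.Injective f := by
    rintro ⟨s, o⟩ ⟨s', o'⟩ he
    rcases o with _ | ⟨l, d⟩ <;> rcases o' with _ | ⟨l', d'⟩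
    · have h4 : v (2 * s) = v (2 * s') := he
      have := hv h4
      have : s = s' := by omega
      rw [this]
    · exact absurd he (key2 s s' l' d')
    · exact absurd he.symm (key2 s' s l d)
    · have h4 : ray P (br s l) (d + 1) = ray P (br s' l') (d' + 1) := he
      obtain ⟨rfl, rfl⟩ := key _ _ _ _ _ _ h4
      have := hinj s l h4
      have : d = d' := by omega
      rw [this]
  refine ⟨⟨⟨f, ?_⟩, finj⟩⟩
  have half : ∀ u w : ℕ × Option (ℕ × ℕ), u.1 = w.1 →
      ((u.2 = none ∧ ∃ l, w.2 = some (l, 0)) ∨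
        ∃ l d, u.2 = some (l, d) ∧ w.2 = some (l, d + 1)) → G.Adj (f u) (f w) := by
    rintro ⟨s, o⟩ ⟨s', o'⟩ rfl (⟨e1, l, e2⟩ | ⟨l, d, e1, e2⟩)
    · have e1' : o = none := e1
      have e2' : o' = some (l, 0) := e2
      subst e1' e2'
      exact ray_adj P (br s l) hv (br_mono s l) 0
    · have e1' : o = some (l, d) := e1
      have e2' : o' = some (l, d + 1) := e2
      subst e1' e2'
      exact ray_adj P (br s l) hv (br_mono s l) (d + 1)
  intro u w huw
  rw [spiders, SimpleGraph.fromRel_adj] at huw
  rcases huw.2 with ⟨e, h⟩ | ⟨e, h⟩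
  · exact half u w e h
  · exact (half w u e h).symm

end Pool.Agent.Q216.MC
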