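import Pool.Agent.W889.SD.Sub
import Pool.Agent.Q216.MC.Spid

set_option autoImplicit false

/-! Subdivided graphs are subgraphs of subdivisions of the complete graph. -/

namespace Pool.Agent.Q216.MC

open SimpleGraph
open Pool.Agent.W889.SD (Big Pth Subd)

/-- The complete graph on `ℕ` with `k + 1` new vertices `(i, j, t)`, `t ≤ k`, on every edge `i j`,
`i < j`; the other vertices `(i, j, t)` are isolated. -/
def subdividedClique (k : ℕ) : SimpleGraph (ℕ ⊕ (ℕ × ℕ × ℕ)) :=
  SimpleGraph.fromRel fun a b => match a, b with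
    | .inl i, .inr (i', j, t) => i = i' ∧ i < j ∧ t = 0
    | .inr (i, j, t), .inr (i', j', t') => i = i' ∧ j = j' ∧ i < j ∧ t' = t + 1 ∧ t' ≤ k
    | .inr (i, j, t), .inl j' => j = j' ∧ i < j ∧ t = k
    | _, _ => False

theorem adj_in {k i j : ℕ} (h : i < j) : (subdividedClique k).Adj (.inl i) (.inr (i, j, 0)) := by
  rw [subdividedClique, SimpleGraph.fromRel_adj]
  exact ⟨by simp, Or.inl ⟨rfl, h, rfl⟩⟩

theorem adj_mid {k i j t : ℕ} (h : i < j) (ht : t + 1 ≤ k) :
    (subdividedClique k).Adj (.inr (i, j, t)) (.inr (i, j, t + 1)) := by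
  rw [subdividedClique, SimpleGraph.fromRel_adj]
  exact ⟨by simp, Or.inl ⟨rfl, rfl, h, rfl, ht⟩⟩

theorem adj_out {k i j : ℕ} (h : i < j) : (subdividedClique k).Adj (.inr (i, j, k)) (.inl j) := by
  rw [subdividedClique, SimpleGraph.fromRel_adj]
  exact ⟨by simp, Or.inl ⟨rfl, h, rfl⟩⟩

variable {k : ℕ} {y : ℕ → ℕ → Prop}

/-- the place of an inner vertex -/
def Pl (k : ℕ) (y : ℕ → ℕ → Prop) (u w w' t : ℕ) : Prop :=
  w < w' ∧ ∃ p, ∃ i : Fin (k + 1), Pth k y w p w' ∧ p i = u ∧ (i : ℕ) = t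

theorem pl_ex (hy : Subd k y) {u : ℕ} (hu : ¬ Big y u) (hi : ¬ ∀ v, ¬ y u v) :
    ∃ w w' t, Pl k y u w w' t := by
  rcases hy.cov u hu with h | ⟨w, p, w', i, h, rfl⟩
  · exact absurd h hi
  · rcases lt_or_gt_of_ne h.ne with h1 | h1
    · exact ⟨w, w', i, h1, p, i, h, rfl, rfl⟩
    · refine ⟨w', w, i.rev, h1, _, i.rev, h.rev hy.symm, ?_, rfl⟩
      show p i.rev.rev = p i
      rw [Fin.rev_rev]

theorem pl_uniq (hy : Subd k y) {u w w' t v v' t' : ℕ} (h : Pl k y u w w' t)
    (h' : Pl k y u v v' t') : w = v ∧ w' = v' ∧ t = t' := by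
  obtain ⟨h1, p, i, h2, h3, rfl⟩ := h
  obtain ⟨h1', q, j, h2', h3', rfl⟩ := h'
  rcases hy.uniq _ _ _ _ _ _ _ _ h2 h2' (h3.trans h3'.symm) with ⟨e1, e2, e3⟩ | ⟨e1, e2, -⟩
  · exact ⟨e1.symm, e2.symm, by rw [e3]⟩
  · omega

theorem pl_inj (hy : Subd k y) {u u' w w' t : ℕ} (h : Pl k y u w w' t)
    (h' : Pl k y u' w w' t) : u = u' := by
  obtain ⟨-, p, i, h2, rfl, h4⟩ := h
  obtain ⟨-, q, j, h2', rfl, h4'⟩ := h'
  have h5 := hy.uq _ _ _ _ h2 h2'
  have h6 : i = j := Fin.ext (h4.trans h4'.symm)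
  rw [h5, h6]

/-- Subdivided graphs are subgraphs of the subdivided complete graph. -/
theorem subd_embed (hy : Subd k y) : ∃ f : ℕ → ℕ ⊕ (ℕ × ℕ × ℕ), Function.Injective f ∧
    ∀ u v, y u v → (subdividedClique k).Adj (f u) (f v) := by
  classical
  have hpl : ∀ u, ∃ a : ℕ × ℕ × ℕ, (¬ Big y u → ¬ (∀ v, ¬ y u v) → Pl k y u a.1 a.2.1 a.2.2) := by
    intro u
    by_cases h : ¬ Big y u ∧ ¬ ∀ v, ¬ y u v
    · obtain ⟨w, w', t, h1⟩ := pl_ex hy h.1 h.2
      exact ⟨(w, w', t), fun _ _ => h1⟩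
    · exact ⟨(0, 0, 0), fun h1 h2 => absurd ⟨h1, h2⟩ h⟩
  choose a ha using hpl
  let f : ℕ → ℕ ⊕ (ℕ × ℕ × ℕ) := fun u =>
    if Big y u then .inl (2 * u) else if ∀ v, ¬ y u v then .inl (2 * u + 1)
      else .inr (2 * (a u).1, 2 * (a u).2.1, (a u).2.2)
  have f1 : ∀ u, Big y u → f u = .inl (2 * u) := fun u h => if_pos h
  have f2 : ∀ u, ¬ Big y u → (∀ v, ¬ y u v) → f u = .inl (2 * u + 1) := fun u h h' => by
    show (if Big y u then _ else _) = _
    rw [if_neg h, if_pos h']
  have f3 : ∀ u, ¬ Big y u → ¬ (∀ v, ¬ y u v) →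
      f u = .inr (2 * (a u).1, 2 * (a u).2.1, (a u).2.2) := fun u h h' => by
    show (if Big y u then _ else _) = _
    rw [if_neg h, if_neg h']
  have f4 : ∀ u w w' t, Pl k y u w w' t → f u = .inr (2 * w, 2 * w', t) := by
    intro u w w' t h
    have h' := h
    obtain ⟨-, p, i, h2, h3, h4⟩ := h'
    have hb : ¬ Big y u := h3 ▸ h2.nb i
    have hn : ¬ ∀ v, ¬ y u v := by
      intro hcon
      by_cases hk : (i : ℕ) = k
      · exact hcon w' (h3 ▸ h2.en i hk)
      · have hi := i.2
        have := h2.mid i ⟨i + 1, by omega⟩ rfl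
        rw [h3] at this
        exact hcon _ this
    rw [f3 u hb hn]
    obtain ⟨e1, e2, e3⟩ := pl_uniq hy (ha u hb hn) h
    rw [e1, e2, e3]
  refine ⟨f, ?_, ?_⟩
  · intro u u' he
    by_cases b1 : Big y u
    · rw [f1 u b1] at he
      by_cases b2 : Big y u'
      · rw [f1 u' b2] at he
        have := Sum.inl.inj he
        omega
      · by_cases c2 : ∀ v, ¬ y u' v
        · rw [f2 u' b2 c2] at he
          have := Sum.inl.inj he
          omega
        · rw [f3 u' b2 c2] at he
          exact absurd he (by simp)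
    · by_cases c1 : ∀ v, ¬ y u v
      · rw [f2 u b1 c1] at he
        by_cases b2 : Big y u'
        · rw [f1 u' b2] at he
          have := Sum.inl.inj he
          omega
        · by_cases c2 : ∀ v, ¬ y u' v
          · rw [f2 u' b2 c2] at he
            have := Sum.inl.inj he
            omega
          · rw [f3 u' b2 c2] at he
            exact absurd he (by simp)
      · rw [f3 u b1 c1] at he
        by_cases b2 : Big y u'
        · rw [f1 u' b2] at he
          exact absurd he (by simp)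
        · by_cases c2 : ∀ v, ¬ y u' v
          · rw [f2 u' b2 c2] at he
            exact absurd he (by simp)
          · rw [f3 u' b2 c2] at he
            have h1 := Prod.mk.inj (Sum.inr.inj he)
            have h2 := Prod.mk.inj h1.2
            have p1 := ha u b1 c1
            have p2 := ha u' b2 c2
            have e1 : (a u).1 = (a u').1 := by have := h1.1; omega
            have e2 : (a u).2.1 = (a u').2.1 := by have := h2.1; omega
            have e3 : (a u).2.2 = (a u').2.2 := h2.2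
            rw [← e1, ← e2, ← e3] at p2
            exact pl_inj hy p1 p2
  · intro u v huv
    -- one of the two vertices is on a path
    have main : ∀ u v, y u v → ¬ Big y u → (subdividedClique k).Adj (f u) (f v) := by
      intro u v huv hu
      have hn : ¬ ∀ v, ¬ y u v := fun h => h v huv
      obtain ⟨w, w', t, h⟩ := pl_ex hy hu hn
      have hfu := f4 u w w' t h
      obtain ⟨h1, p, i, h2, rfl, rfl⟩ := h
      rw [hfu]
      rcases hy.cl _ _ _ _ _ h2 huv with ⟨rfl, h4⟩ | ⟨rfl, h4⟩ | ⟨j, rfl, h4⟩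
      · rw [f1 v h2.bw, h4]
        exact (adj_in (by omega)).symm
      · rw [f1 v h2.bw', h4]
        exact adj_out (by omega)
      · rw [f4 (p j) w w' j ⟨h1, p, j, h2, rfl, rfl⟩]
        have hi := i.2
        have hj := j.2
        rcases h4 with h4 | h4
        · rw [h4]
          exact adj_mid (by omega) (by omega)
        · rw [h4]
          exact (adj_mid (by omega) (by omega)).symm
    by_cases hu : Big y u
    · exact (main v u (hy.symm _ _ huv) (fun hv => hy.indep _ _ hu hv huv)).symm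
    · exact main u v huv hu

end Pool.Agent.Q216.MC
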