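import Pool.Agent.W889.FO.Cpl

set_option autoImplicit false

/-! From the dichotomy for Borel classes of structures with a sequence of relations to the dichotomy
for first-order theories in countable relational languages. -/

namespace Pool.Agent.Q216.MC

open FirstOrder FirstOrder.Language
open Pool.Agent.W889.FO
open Pool.Agent.W889.VC (BP)

/-- Relational structures on `ℕ` with relations of arities `a 0, a 1, ...`. -/
abbrev Str (a : ℕ → ℕ) : Type := (i : ℕ) → (Fin (a i) → ℕ) → Bool

/-- Isomorphism of structures. -/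
def Iso {a : ℕ → ℕ} (x y : Str a) : Prop :=
  ∃ σ : Equiv.Perm ℕ, ∀ (i : ℕ) (v : Fin (a i) → ℕ), y i (⇑σ ∘ v) = x i v

/-- Vaught's conjecture, in perfect-set form, for the class `V`. -/
def VaughtB {a : ℕ → ℕ} (V : Str a → Prop) : Prop :=
  ∀ B : Set (Str a), MeasurableSet B → (∀ x y, Iso x y → (x ∈ B ↔ y ∈ B)) → (∀ x ∈ B, V x) →
    (∃ f : ℕ → Str a, ∀ x ∈ B, ∃ n, Iso (f n) x) ∨
    (∃ g : (ℕ → Bool) → Str a, Continuous g ∧ (∀ c, g c ∈ B) ∧ ∀ c d, Iso (g c) (g d) → c = d)

variable {L : FirstOrder.Language.{0, 0}}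

/-- the arity of a symbol, if there is one -/
def arO : Option (Σ n, L.Relations n) → ℕ
  | some p => p.1
  | none => 1

/-- the interpretation of a symbol, if there is one -/
def rlO (S : L.Structure ℕ) : (o : Option (Σ n, L.Relations n)) → (Fin (arO o) → ℕ) → Prop
  | some p => fun v => @Structure.RelMap L ℕ S p.1 p.2 v
  | none => fun _ => False

theorem rlO_eq (S : L.Structure ℕ) (o : Option (Σ n, L.Relations n)) (p : Σ n, L.Relations n)
    (h : o = some p) (hc : arO o = p.1) (v : Fin p.1 → ℕ) :
    rlO S o (fun i => v (Fin.cast hc i)) ↔ @Structure.RelMap L ℕ S p.1 p.2 v := by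
  subst h
  exact Iff.rfl

theorem rlO_none (S : L.Structure ℕ) (o : Option (Σ n, L.Relations n)) (h : o = none)
    (v : Fin (arO o) → ℕ) : ¬ rlO S o v := by
  subst h
  exact fun h => h

variable (s : ℕ → Option (Σ n, L.Relations n)) (e : (Σ n, L.Relations n) → ℕ)
  (he : ∀ p, s (e p) = some p)

/-- the arities -/
def arN (m : ℕ) : ℕ := arO (s m)

/-- the code of a structure -/
noncomputable def cod (S : L.Structure ℕ) : Str (arN s) :=
  open Classical in fun m v => decide (rlO S (s m) v)

include he in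
theorem arN_e (p : Σ n, L.Relations n) : arN s (e p) = p.1 := by
  show arO (s (e p)) = p.1
  rw [he]
  rfl

variable [L.IsRelational]

/-- the decoded structure -/
@[reducible] def dco (x : Str (arN s)) : L.Structure ℕ where
  funMap := fun {_} f => isEmptyElim f
  RelMap := fun {n} R v => x (e ⟨n, R⟩) (fun i => v (Fin.cast (arN_e s e he ⟨n, R⟩) i)) = true

omit [L.IsRelational] in
theorem cod_iff (S : L.Structure ℕ) (m : ℕ) (v : Fin (arN s m) → ℕ) :
    cod s S m v = true ↔ rlO S (s m) v :=
  @decide_eq_true_iff _ (Classical.propDecidable _)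

omit [L.IsRelational] in
theorem cod_e (S : L.Structure ℕ) {n : ℕ} (R : L.Relations n) (v : Fin n → ℕ) :
    cod s S (e ⟨n, R⟩) (fun i => v (Fin.cast (arN_e s e he ⟨n, R⟩) i)) = true ↔
      @Structure.RelMap L ℕ S n R v := by
  rw [cod_iff]
  exact rlO_eq S _ ⟨n, R⟩ (he _) _ v

theorem dco_cod (S : L.Structure ℕ) : SIso (dco s e he (cod s S)) S := by
  refine ⟨@FirstOrder.Language.Equiv.mk L ℕ ℕ (dco s e he (cod s S)) S (_root_.Equiv.refl ℕ)
    (fun {n} f => isEmptyElim f) (fun {n} R v => ?_)⟩
  exact (cod_e s e he S R v).symm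

/-- symbols which are not used are interpreted by the empty relation -/
def Norm (x : Str (arN s)) : Prop := ∀ m, s m = none → ∀ v, x m v = false

omit [L.IsRelational] in
theorem norm_cod (S : L.Structure ℕ) : Norm s (cod s S) := by
  intro m hm v
  rw [← Bool.not_eq_true, cod_iff]
  exact rlO_none S _ hm v

theorem rlO_dco (x : Str (arN s)) (m : ℕ) (v : Fin (arO (s m)) → ℕ)
    (hse : ∀ m p, s m = some p → e p = m) (hx : Norm s x) :
    rlO (dco s e he x) (s m) v ↔ x m v = true := by
  by_cases hsm : s m = none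
  · constructor
    · intro h
      exact absurd h (rlO_none _ _ hsm v)
    · intro h
      have h' := hx m hsm v
      rw [h] at h'
      exact absurd h' (by decide)
  · obtain ⟨p, hp⟩ := Option.ne_none_iff_exists'.1 hsm
    have hm := hse m p hp
    subst hm
    obtain ⟨n, R⟩ := p
    have h1 := rlO_eq (dco s e he x) (s (e ⟨n, R⟩)) ⟨n, R⟩ hp (arN_e s e he ⟨n, R⟩)
      (fun i => v (Fin.cast (arN_e s e he ⟨n, R⟩).symm i))
    exact h1

theorem cod_dco (x : Str (arN s)) (hse : ∀ m p, s m = some p → e p = m) (hx : Norm s x) :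
    cod s (dco s e he x) = x := by
  funext m v
  rw [Bool.eq_iff_iff, cod_iff]
  exact rlO_dco s e he x m v hse hx

theorem iso_dco {x y : Str (arN s)} (h : Iso x y) : SIso (dco s e he x) (dco s e he y) := by
  obtain ⟨σ, hσ⟩ := h
  refine ⟨@FirstOrder.Language.Equiv.mk L ℕ ℕ (dco s e he x) (dco s e he y) σ
    (fun {n} f => isEmptyElim f) (fun {n} R v => ?_)⟩
  show y (e ⟨n, R⟩) (fun i => (⇑σ ∘ v) (Fin.cast _ i)) = true ↔
    x (e ⟨n, R⟩) (fun i => v (Fin.cast _ i)) = true
  rw [← hσ]
  exact Iff.rfl

theorem iso_of_dco {x y : Str (arN s)} (hse : ∀ m p, s m = some p → e p = m) (hx : Norm s x)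
    (hy : Norm s y) (h : SIso (dco s e he x) (dco s e he y)) : Iso x y := by
  obtain ⟨g⟩ := h
  refine ⟨@FirstOrder.Language.Equiv.toEquiv L ℕ ℕ (dco s e he x) (dco s e he y) g,
    fun m v => ?_⟩
  rw [Bool.eq_iff_iff]
  by_cases hsm : s m = none
  · rw [hx m hsm, hy m hsm]
  · obtain ⟨p, hp⟩ := Option.ne_none_iff_exists'.1 hsm
    have hm := hse m p hp
    subst hm
    obtain ⟨n, R⟩ := p
    have h1 := @FirstOrder.Language.Equiv.map_rel' L ℕ ℕ (dco s e he x) (dco s e he y) g n R
      (fun i => v (Fin.cast (arN_e s e he ⟨n, R⟩).symm i))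
    exact h1

include he in
/-- The dichotomy for the theories all of whose models are coded in `V`. -/
theorem fo_of_borel [Countable (Σ n, L.Relations n)] (hse : ∀ m p, s m = some p → e p = m)
    (V : Str (arN s) → Prop) (hV : VaughtB V) (T : L.Theory)
    (hT : ∀ S : L.Structure ℕ, @Theory.Model L ℕ S T → V (cod s S)) : Vaught L T := by
  classical
  let B : Set (Str (arN s)) := {x | Norm s x ∧ @Theory.Model L ℕ (dco s e he x) T}
  have hBm : MeasurableSet B := by
    have h1 : BP (fun x : Str (arN s) => Norm s x) := by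
      refine BP.all fun m => (BP.const _).imp ?_
      have : Countable (Fin (arN s m) → ℕ) := inferInstance
      refine BP.all fun v => ?_
      have hm : Measurable fun x : Str (arN s) => x m v :=
        (measurable_pi_apply v).comp (measurable_pi_apply m)
      exact hm (measurableSet_singleton false)
    have h2 : BP (fun x : Str (arN s) => @Theory.Model L ℕ (dco s e he x) T) := by
      have hc : Countable L.Sentence := countable_sentence
      have h3 : BP (fun x : Str (arN s) => ∀ φ : L.Sentence, φ ∈ T →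
          @Sentence.Realize L ℕ (dco s e he x) φ) := by
        refine BP.all fun φ => (BP.const _).imp (bp_sentence (fun n R v => ?_) φ)
        have hm : Measurable fun x : Str (arN s) =>
            x (e ⟨n, R⟩) (fun i => v (Fin.cast (arN_e s e he ⟨n, R⟩) i)) :=
          (measurable_pi_apply _).comp (measurable_pi_apply _)
        exact hm (measurableSet_singleton true)
      refine h3.congr fun x => ?_
      exact (@ax_iff L T (dco s e he x)).symm
    exact h1.and h2
  have hinv : ∀ x y : Str (arN s), Iso x y → x ∈ B → y ∈ B := by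
    rintro x y hxy ⟨h1, h2⟩
    constructor
    · obtain ⟨σ, hσ⟩ := hxy
      intro m hm v
      have := hσ m (⇑σ.symm ∘ v)
      rw [h1 m hm] at this
      rw [← this]
      congr 1
      funext i
      simp
    · exact (iso_dco s e he hxy).model h2
  have hsym : ∀ x y : Str (arN s), Iso x y → Iso y x := by
    rintro x y ⟨σ, h⟩
    refine ⟨σ.symm, fun i v => ?_⟩
    rw [← h]
    congr 1
    funext j
    simp
  have hBV : ∀ x ∈ B, V x := by
    rintro x ⟨h1, h2⟩
    have := hT _ h2
    rwa [cod_dco s e he x hse h1] at this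
  have hcB : ∀ S : L.Structure ℕ, @Theory.Model L ℕ S T → cod s S ∈ B := fun S hS =>
    ⟨norm_cod s S, (dco_cod s e he S).symm.model hS⟩
  rcases hV B hBm (fun x y h => ⟨hinv x y h, hinv y x (hsym x y h)⟩) hBV with
    ⟨f, hf⟩ | ⟨g, h1, h2, h3⟩
  · left
    refine ⟨fun n => dco s e he (f n), fun S hS => ?_⟩
    obtain ⟨n, hn⟩ := hf _ (hcB S hS)
    exact ⟨n, ((iso_dco s e he hn).trans (dco_cod s e he S)).symm⟩
  · right
    refine ⟨fun c => dco s e he (g c), fun c => (h2 c).2, fun c d h => h3 c d
      (iso_of_dco s e he hse (h2 c).1 (h2 d).1 h), fun n R v => ?_⟩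
    have hc : Continuous fun c => g c (e ⟨n, R⟩)
        (fun i => v (Fin.cast (arN_e s e he ⟨n, R⟩) i)) :=
      (continuous_apply _).comp ((continuous_apply _).comp h1)
    exact (isClopen_discrete {true}).preimage hc

/-- Such enumerations of the symbols exist. -/
theorem exists_enum (L : FirstOrder.Language.{0, 0}) [Countable (Σ n, L.Relations n)] :
    ∃ (s : ℕ → Option (Σ n, L.Relations n)) (e : (Σ n, L.Relations n) → ℕ),
      (∀ p, s (e p) = some p) ∧ ∀ m p, s m = some p → e p = m := by
  classical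
  obtain ⟨e, he⟩ := Countable.exists_injective_nat (Σ n, L.Relations n)
  have h : ∀ m, ∃ o : Option (Σ n, L.Relations n), (∀ p, e p = m → o = some p) ∧
      ∀ p, o = some p → e p = m := by
    intro m
    by_cases h' : ∃ q, e q = m
    · obtain ⟨q, hq⟩ := h'
      refine ⟨some q, fun p hp => congrArg some (he (hq.trans hp.symm)), fun p hp => ?_⟩
      rw [← Option.some.inj hp]
      exact hq
    · exact ⟨none, fun p hp => absurd ⟨p, hp⟩ h', fun p hp => absurd hp (by simp)⟩
  choose s h1 h2 using h
  exact ⟨s, e, fun p => h1 _ _ rfl, h2⟩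

end Pool.Agent.Q216.MC
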